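import Pool.Agent.KS6_54.VG.Three
import Pool.Agent.KS6_54.VG.Corrug

/-!
# The largest strong `∨₂`-free sets in `[k]^d`

In dimension three the largest strong `∨₂`-free set of `[k]^3` has between `3k(k-1)/2` and `3k²/2`
points, so that its ratio to the width of `[k]^3` tends to `2` (and not to `1 + 1/3`). In every
dimension `d ≥ 2` the largest strong `∨₂`-free set has at most `d/(d-1) k^{d-1}` points, and at
least `d/(d-1) - o(1)` times the width; so the ratio does not tend to `1 + 1/d` for any `d ≥ 3`.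
-/

set_option autoImplicit false

namespace Pool.Agent.Results.MP_8ac0e4_co.CubeLimit

open Filter Topology

/-- `F ⊆ [k]^d` has no strong copy of `∨₂` -/
def VFree {k d : ℕ} (F : Finset (Fin d → Fin k)) : Prop :=
  ¬ ∃ a ∈ F, ∃ b₁ ∈ F, ∃ b₂ ∈ F, a < b₁ ∧ a < b₂ ∧ ¬ b₁ ≤ b₂ ∧ ¬ b₂ ≤ b₁

open Classical in
/-- `La*([k]^d, ∨₂)`, the largest size of a strong `∨₂`-free subset of `[k]^d` -/
noncomputable def La (k d : ℕ) : ℕ :=
  (Finset.univ.filter fun F : Finset (Fin d → Fin k) => VFree F).sup Finset.card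

open Classical in
/-- the width `w_{k,d}` of `[k]^d`, the largest size of an antichain -/
noncomputable def w (k d : ℕ) : ℕ :=
  (Finset.univ.filter fun A : Finset (Fin d → Fin k) =>
    IsAntichain (· ≤ ·) (A : Set (Fin d → Fin k))).sup Finset.card

lemma La_eq (k d : ℕ) : La k d = KS6_54.VG.La k d := rfl

lemma w_eq (k d : ℕ) : w k d = KS6_54.VG.w k d := rfl

lemma lim3 : Tendsto (fun k : ℕ => (La k 3 : ℝ) / w k 3) atTop (𝓝 2) := by
  have hk : Tendsto (fun k : ℕ => (1 : ℝ) / k) atTop (𝓝 0) := tendsto_one_div_atTop_nhds_zero_nat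
  have lo : Tendsto (fun k : ℕ => 2 - 4 * ((1 : ℝ) / k)) atTop (𝓝 2) := by
    simpa using (tendsto_const_nhds (x := (2 : ℝ))).sub (hk.const_mul 4)
  refine tendsto_of_tendsto_of_tendsto_of_le_of_le' lo tendsto_const_nhds ?_ ?_
  all_goals
    filter_upwards [eventually_ge_atTop 1] with k hk1
    have a1 : 3 * (k * (k - 1)) ≤ 2 * La k 3 := KS6_54.VG.La_lower k
    have a2 : 2 * La k 3 ≤ 3 * k ^ 2 := KS6_54.VG.La_upper k 2
    have a3 : 3 * k ^ 2 ≤ 4 * w k 3 := KS6_54.VG.w_lower k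
    have a4 : 4 * w k 3 ≤ 3 * k ^ 2 + 1 := KS6_54.VG.w_upper k
    have k1 : (1 : ℝ) ≤ k := by exact_mod_cast hk1
    have b1 : 3 * ((k : ℝ) * (k - 1)) ≤ 2 * La k 3 := by
      have : ((3 * (k * (k - 1)) : ℕ) : ℝ) ≤ ((2 * La k 3 : ℕ) : ℝ) := by exact_mod_cast a1
      push_cast [Nat.cast_sub hk1] at this
      linarith
    have b2 : 2 * (La k 3 : ℝ) ≤ 3 * (k : ℝ) ^ 2 := by exact_mod_cast a2
    have b3 : 3 * (k : ℝ) ^ 2 ≤ 4 * w k 3 := by exact_mod_cast a3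
    have b4 : 4 * (w k 3 : ℝ) ≤ 3 * (k : ℝ) ^ 2 + 1 := by exact_mod_cast a4
    have wp : (0 : ℝ) < w k 3 := by nlinarith
  · rw [le_div_iff₀ wp]
    have e : (2 - 4 * ((1 : ℝ) / k)) * k = 2 * k - 4 := by field_simp
    generalize 2 - 4 * ((1 : ℝ) / k) = c at e
    refine le_of_mul_le_mul_right ?_ (show (0 : ℝ) < k by linarith)
    rw [mul_right_comm, e]
    rcases le_total (k : ℝ) 2 with h | h
    · have : (0 : ℝ) ≤ La k 3 := Nat.cast_nonneg _
      nlinarith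
    · have h1 : (2 * (k : ℝ) - 4) * (4 * w k 3) ≤ (2 * (k : ℝ) - 4) * (3 * (k : ℝ) ^ 2 + 1) :=
        mul_le_mul_of_nonneg_left b4 (by linarith)
      have h2 : 3 * ((k : ℝ) * (k - 1)) * k ≤ 2 * La k 3 * k :=
        mul_le_mul_of_nonneg_right b1 (by linarith)
      nlinarith
  · rw [div_le_iff₀ wp]
    nlinarith

theorem result :
    (∀ k : ℕ, 3 * (k * (k - 1)) ≤ 2 * La k 3 ∧ 2 * La k 3 ≤ 3 * k ^ 2) ∧
    Tendsto (fun k : ℕ => (La k 3 : ℝ) / w k 3) atTop (𝓝 2) ∧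
    (∀ k d : ℕ, 1 ≤ d → (d - 1) * La k d ≤ d * k ^ (d - 1)) ∧
    (∀ d : ℕ, 2 ≤ d → ∀ ε : ℝ, 0 < ε →
      ∀ᶠ k : ℕ in atTop, ((d : ℝ) / (d - 1) - ε) * w k d ≤ La k d) ∧
    ∀ d : ℕ, 3 ≤ d →
      ¬ Tendsto (fun k : ℕ => (La k d : ℝ) / w k d) atTop (𝓝 (1 + 1 / (d : ℝ))) := by
  refine ⟨fun k => ⟨KS6_54.VG.La_lower k, KS6_54.VG.La_upper k 2⟩, lim3, fun k d hd => ?_,
    KS6_54.VG.part1, fun d hd h => ?_⟩
  · obtain ⟨e, rfl⟩ : ∃ e, d = e + 1 := ⟨d - 1, by omega⟩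
    exact KS6_54.VG.La_upper k e
  · have d3 : (3 : ℝ) ≤ d := by exact_mod_cast hd
    have lt : 1 + 1 / (d : ℝ) < d / (d - 1) := by
      rw [lt_div_iff₀ (by linarith), add_mul, one_div, inv_mul_eq_div, sub_div,
        div_self (by linarith)]
      have : (0 : ℝ) < 1 / d := by positivity
      linarith
    obtain ⟨c, c1, c2⟩ := exists_between lt
    obtain ⟨k, h1, h2, h3⟩ := ((h.eventually (gt_mem_nhds c1)).and
      ((KS6_54.VG.part1 d (by omega) _ (sub_pos.2 c2)).and (eventually_gt_atTop 0))).exists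
    obtain ⟨k, rfl⟩ : ∃ k', k = k' + 1 := ⟨k - 1, by omega⟩
    rw [div_lt_iff₀ (by exact_mod_cast KS6_54.VG.w_pos k d)] at h1
    rw [sub_sub_cancel] at h2
    simp only [La_eq, w_eq] at h1
    linarith

end Pool.Agent.Results.MP_8ac0e4_co.CubeLimit
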